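import Pool.Agent.Helper45.BP.Defs
import Pool.Agent.Helper3.AF9.OrbF
import Pool.Agent.Helper20.CH.Ab

/-!
BoundedPoles, block B2': products of groups of bounded order.
-/

set_option autoImplicit false

namespace Pool.Agent.Helper4.BP

open Pool.Agent.Helper13.Ded Pool.Agent.Helper90.EE
open Pool.Agent.Helper45.BP (CrudeS)

section gen

variable {G : Type*} [Group G] [Finite G] {θ : G → ℂ}

/-- one step with an abelian subgroup -/
lemma ab_norm (hθ : HPC θ) (A : Subgroup G) (hA : ∀ a ∈ A, ∀ b ∈ A, a * b = b * a) (g : G)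
    (hg : g ∈ Subgroup.normalizer (A : Set G)) (r : G) (hr : r ∈ A) :
    ‖θ (g * r) - θ g‖ ≤ 2 * (θ 1 - cav (fun a : A => θ a)).re := by
  have hle : A ≤ Subgroup.normalizer (A : Set G) := Subgroup.le_normalizer
  have hN : (A.subgroupOf (Subgroup.normalizer (A : Set G))).Normal := Subgroup.normal_in_normalizer
  have hc : ∀ a ∈ A.subgroupOf (Subgroup.normalizer (A : Set G)),
      ∀ b ∈ A.subgroupOf (Subgroup.normalizer (A : Set G)), a * b = b * a := by
    intro a ha b hb
    exact Subtype.ext (hA _ (Subgroup.mem_subgroupOf.1 ha) _ (Subgroup.mem_subgroupOf.1 hb))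
  have hθ' : HPC (fun y : Subgroup.normalizer (A : Set G) => θ y) :=
    HPC.comp' hθ (Subgroup.normalizer (A : Set G)).subtype
  let e : A.subgroupOf (Subgroup.normalizer (A : Set G)) ≃* A := Subgroup.subgroupOfEquivOfLe hle
  have h1 := Pool.Agent.Helper20.CH.ab_sup hθ' _ hc ⟨g * r, mul_mem hg (hle hr)⟩
  have h2 := Pool.Agent.Helper20.CH.ab_sup hθ' _ hc ⟨g, hg⟩
  have h3 : ∀ z : G, ∀ hz : z ∈ Subgroup.normalizer (A : Set G),
      cav (fun a : A.subgroupOf (Subgroup.normalizer (A : Set G)) =>
        θ (((⟨z, hz⟩ : Subgroup.normalizer (A : Set G)) * a : Subgroup.normalizer (A : Set G)) : G)) =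
      cav (fun a : A => θ (z * a)) := by
    intro z hz
    rw [← cav_comp_equiv e.toEquiv (fun a : A => θ (z * a))]
    rfl
  have h4 : cav (fun a : A.subgroupOf (Subgroup.normalizer (A : Set G)) =>
      θ ((a : Subgroup.normalizer (A : Set G)) : G)) = cav (fun a : A => θ a) := by
    rw [← cav_comp_equiv e.toEquiv (fun a : A => θ a)]
    rfl
  have h5 : cav (fun a : A => θ (g * r * a)) = cav (fun a : A => θ (g * a)) := by
    rw [← cav_comp_equiv (Equiv.mulLeft (⟨r, hr⟩ : A)) (fun a : A => θ (g * a))]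
    congr 1
    funext a
    simp only [Equiv.coe_mulLeft, Subgroup.coe_mul]
    rw [mul_assoc]
  rw [h3, h4, h5] at h1
  rw [h3, h4] at h2
  have h6 : θ (g * r) - θ g = (θ (g * r) - cav (fun a : A => θ (g * a))) -
      (θ g - cav (fun a : A => θ (g * a))) := by ring
  rw [h6]
  refine (norm_sub_le _ _).trans ?_
  have h7 : (θ ((1 : Subgroup.normalizer (A : Set G)) : G)) = θ 1 := rfl
  rw [h7] at h1 h2
  have h8 := add_le_add h1 h2
  linarith

omit [Finite G] in
lemma zpow_comm (c : G) : ∀ a ∈ Subgroup.zpowers c, ∀ b ∈ Subgroup.zpowers c, a * b = b * a := by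
  rintro _ ⟨i, rfl⟩ _ ⟨j, rfl⟩
  exact ((Commute.refl c).zpow_zpow i j).eq

omit [Finite G] in
lemma comm_norm {g c : G} (h : Commute g c) : g ∈ Subgroup.normalizer (Subgroup.zpowers c : Set G) := by
  rw [Subgroup.mem_normalizer_iff]
  have key : ∀ x ∈ Subgroup.zpowers c, g * x * g⁻¹ = x := by
    rintro _ ⟨i, rfl⟩
    have h1 : g * c ^ i = c ^ i * g := (h.zpow_right i).eq
    show g * c ^ i * g⁻¹ = c ^ i
    rw [h1]
    group
  intro x
  constructor
  · intro hx
    rw [key x hx]
    exact hx
  · intro hx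
    have h1 : g * x * g⁻¹ = x := by
      have h2 : ∀ y ∈ Subgroup.zpowers c, g⁻¹ * y * g = y := by
        rintro _ ⟨i, rfl⟩
        have h1 : g * c ^ i = c ^ i * g := (h.zpow_right i).eq
        show g⁻¹ * c ^ i * g = c ^ i
        rw [mul_assoc, ← h1]
        group
      have h3 := h2 _ hx
      have h4 : g⁻¹ * (g * x * g⁻¹) * g = x := by group
      rw [h4] at h3
      exact h3.symm
    rw [h1] at hx
    exact hx

/-- the value at the identity is the largest -/
lemma re_le_one (hθ : HPC θ) (g : G) : (θ g).re ≤ (θ 1).re := by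
  have hle : Subgroup.zpowers g ≤ Subgroup.zpowers g := le_rfl
  let P := Subgroup.zpowers g
  have hθ' : HPC (fun y : P => θ y) := HPC.comp' hθ P.subtype
  have h1 := Pool.Agent.Helper20.CH.ab_sup hθ' (⊤ : Subgroup P) (fun a _ b _ =>
    Subtype.ext (zpow_comm g _ a.2 _ b.2)) ⟨g, Subgroup.mem_zpowers g⟩
  have h5 : cav (fun a : (⊤ : Subgroup P) => θ ((⟨g, Subgroup.mem_zpowers g⟩ * a : P) : G)) =
      cav (fun a : (⊤ : Subgroup P) => θ ((a : P) : G)) := by
    rw [← cav_comp_equiv (Equiv.mulLeft (⟨⟨g, Subgroup.mem_zpowers g⟩, Subgroup.mem_top _⟩ : (⊤ : Subgroup P)))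
      (fun a : (⊤ : Subgroup P) => θ ((a : P) : G))]
    rfl
  rw [h5] at h1
  have h2 := (Complex.re_le_norm _).trans h1
  have h7 : (θ ((1 : P) : G)) = θ 1 := rfl
  rw [h7, Complex.sub_re, Complex.sub_re] at h2
  have h8 : (θ ((⟨g, Subgroup.mem_zpowers g⟩ : P) : G)) = θ g := rfl
  rw [h8] at h2
  linarith

end gen

/-- averages over a smaller set -/
lemma card_mul_le {X Y : Type*} [Finite X] [Finite Y] (j : X → Y) (hj : Function.Injective j)
    (f : Y → ℂ) (z : ℝ) (h : ∀ y, (f y).re ≤ z) [Nonempty X] :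
    z - (cav (fun x => f (j x))).re ≤ Nat.card Y * (z - (cav f).re) := by
  classical
  have := Fintype.ofFinite X
  have := Fintype.ofFinite Y
  have hX : (1 : ℝ) ≤ Fintype.card X := by exact_mod_cast Fintype.card_pos
  have hY0 : Nonempty Y := ⟨j (Classical.arbitrary X)⟩
  have hY : (0 : ℝ) < Fintype.card Y := by exact_mod_cast Fintype.card_pos
  have h1 : ∑ x, (z - (f (j x)).re) ≤ ∑ y, (z - (f y).re) := by
    have h0 : ∑ x, (z - (f (j x)).re) = ∑ y ∈ Finset.univ.map ⟨j, hj⟩, (z - (f y).re) := by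
      rw [Finset.sum_map]
      rfl
    rw [h0]
    exact Finset.sum_le_sum_of_subset_of_nonneg (Finset.subset_univ _) fun y _ _ => by linarith [h y]
  have h2 : z - (cav (fun x => f (j x))).re = (∑ x, (z - (f (j x)).re)) / Fintype.card X := by
    rw [cav_re, av_eq_sum, Finset.sum_sub_distrib, Finset.sum_const, Finset.card_univ, nsmul_eq_mul]
    field_simp
  have h3 : z - (cav f).re = (∑ y, (z - (f y).re)) / Fintype.card Y := by
    rw [cav_re, av_eq_sum, Finset.sum_sub_distrib, Finset.sum_const, Finset.card_univ, nsmul_eq_mul]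
    field_simp
  rw [h2, h3, Nat.card_eq_fintype_card, mul_div_cancel₀ _ hY.ne', div_le_iff₀ (by linarith)]
  have h4 : 0 ≤ ∑ y, (z - (f y).re) := Finset.sum_nonneg fun y _ => by linarith [h y]
  nlinarith

lemma norm_sub_cav_le {P : Type*} [Finite P] [Nonempty P] (f : P → ℂ) (z : ℂ) (B : ℝ)
    (h : ∀ p, ‖z - f p‖ ≤ B) : ‖z - cav f‖ ≤ B := by
  classical
  have := Fintype.ofFinite P
  have hP : (0 : ℝ) < Fintype.card P := by exact_mod_cast Fintype.card_pos
  have hP' : (Fintype.card P : ℂ) ≠ 0 := by exact_mod_cast hP.ne'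
  have h1 : z - cav f = (∑ p, (z - f p)) / Fintype.card P := by
    rw [cav_eq_sum, Finset.sum_sub_distrib, Finset.sum_const, Finset.card_univ, nsmul_eq_mul]
    field_simp
  rw [h1, norm_div, Complex.norm_natCast, div_le_iff₀ hP]
  refine (norm_sum_le _ _).trans ((Finset.sum_le_sum fun p _ => h p).trans (le_of_eq ?_))
  rw [Finset.sum_const, Finset.card_univ, nsmul_eq_mul, mul_comm]

/-- **B2'**: products of groups of bounded order -/
theorem crudeS : CrudeS := by
  intro n
  refine ⟨4 * n, by positivity, ?_⟩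
  intro T _ _ hT l
  -- one factor
  have key : ∀ (R : Type) [Group R] [Finite R] (θ : T × R → ℂ), HPC θ → ∀ (t : T) (ρ : R),
      ‖θ (t, ρ) - cav (fun t : T => θ (t, ρ))‖ ≤ 4 * n * (θ 1 - cav (fun t : T => θ (t, 1))).re := by
    intro R _ _ θ hθ t ρ
    set μ := (θ 1 - cav (fun t : T => θ (t, 1))).re with hμ
    have hone : ∀ c : T × R, (θ c).re ≤ (θ 1).re := fun c => re_le_one hθ c
    have hstep : ∀ t : T, ‖θ (t, ρ) - θ (1, ρ)‖ ≤ 2 * (n * μ) := by
      intro t
      have hcm : Commute ((1, ρ) : T × R) (t, 1) := by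
        show _ * _ = _ * _
        simp
      have h1 := ab_norm hθ (Subgroup.zpowers ((t, 1) : T × R)) (zpow_comm _) (1, ρ) (comm_norm hcm)
        (t, 1) (Subgroup.mem_zpowers _)
      have h2 : ((1, ρ) : T × R) * (t, 1) = (t, ρ) := by simp
      rw [h2] at h1
      refine h1.trans ?_
      have hin : ∀ a : Subgroup.zpowers ((t, 1) : T × R), (a : T × R) = ((a : T × R).1, 1) := by
        rintro ⟨_, ⟨i, rfl⟩⟩
        refine Prod.ext rfl ?_
        show ((t, (1 : R)) ^ i).2 = 1
        rw [Prod.pow_snd]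
        simp
      have h3 := card_mul_le (X := Subgroup.zpowers ((t, 1) : T × R)) (Y := T) (fun a => (a : T × R).1)
        (fun a b hab => by
          apply Subtype.ext
          rw [hin a, hin b]
          exact congrArg (fun x => (x, (1 : R))) hab) (fun t => θ (t, 1)) (θ 1).re
        (fun t => hone _)
      have h4 : (fun a : Subgroup.zpowers ((t, 1) : T × R) => θ ((a : T × R).1, 1)) =
          fun a : Subgroup.zpowers ((t, 1) : T × R) => θ (a : T × R) := by
        funext a
        rw [← hin a]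
      rw [h4] at h3
      have h5 : (θ 1 - cav (fun a : Subgroup.zpowers ((t, 1) : T × R) => θ a)).re ≤ n * μ := by
        rw [Complex.sub_re]
        refine h3.trans ?_
        have h6 : 0 ≤ μ := by
          have h7 : (0 : ℝ) < Nat.card T := by exact_mod_cast Nat.card_pos
          have h8 : (cav (fun t : T => θ (t, 1))).re ≤ (θ 1).re := by
            rw [cav_re]
            have := av_mono (f := fun t : T => (θ (t, 1)).re) (g := fun _ : T => (θ 1).re) (fun t => hone _)
            rwa [av_const] at this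
          rw [hμ, Complex.sub_re]
          linarith
        rw [hμ, Complex.sub_re] at h6 ⊢
        exact mul_le_mul_of_nonneg_right (by exact_mod_cast hT) h6
      linarith
    refine norm_sub_cav_le _ _ _ fun t' => ?_
    have h1 := hstep t
    have h2 := hstep t'
    have h3 : θ (t, ρ) - θ (t', ρ) = (θ (t, ρ) - θ (1, ρ)) - (θ (t', ρ) - θ (1, ρ)) := by ring
    rw [h3]
    refine (norm_sub_le _ _).trans ?_
    linarith
  induction l with
  | zero =>
    intro θ _ x
    have hx : ∀ y : (Fin 0 → T), y = 1 := fun y => funext fun i => i.elim0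
    have h1 : cav θ = θ 1 := by
      classical
      have := Fintype.ofFinite (Fin 0 → T)
      have : Unique (Fin 0 → T) := ⟨⟨1⟩, hx⟩
      rw [cav_eq_sum, Fintype.card_unique, Nat.cast_one, div_one, Fintype.sum_unique, hx default]
    rw [h1, hx x, sub_self, norm_zero, Complex.zero_re, mul_zero]
  | succ k ih =>
    intro θ hθ x
    let e : (Fin (k + 1) → T) ≃* T × (Fin k → T) :=
      { toFun := fun y => (y 0, fun i => y i.succ)
        invFun := fun z => Fin.cons z.1 z.2
        left_inv := fun y => by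
          funext i
          refine Fin.cases ?_ (fun j => ?_) i
          · rfl
          · rfl
        right_inv := fun z => rfl
        map_mul' := fun y z => rfl }
    exact Pool.Agent.Helper3.AF9.crude_equiv e (fun φ hφ y =>
      Pool.Agent.Helper3.AF9.crude_step (fun ψ hψ t ρ => key _ ψ hψ t ρ) ih φ hφ y) θ hθ x

end Pool.Agent.Helper4.BP
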