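import Pool.Agent.Helper4.BP.Crude

/-!
BoundedPoles, block B3b: one orbit of factors of bounded order.
-/

set_option autoImplicit false

namespace Pool.Agent.Helper4.BP

open Pool.Agent.Helper13.Ded Pool.Agent.Helper90.EE
open Pool.Agent.Helper88.AS (PA)
open Pool.Agent.Helper55.AS (PP)
open Pool.Agent.Helper45.BP (CrudeS ConnBd StepS OrbSmall OrbSup Cm)
open Pool.Agent.Helper3.AF9 (DD qq ext PPhom CommH class_PP class_DD cav_qq)

/-- the average over a subgroup of the image of `PP` -/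
lemma sub_le {G T : Type} [Group G] [Finite G] [Group T] [Finite T] {φ : T →* G} {a : G} {l : ℕ}
    {θ : G → ℂ} {C₁ : ℝ}
    (hcr : ∀ b : Fin l → T, ‖θ (PP φ a l b) - cav (fun b : Fin l → T => θ (PP φ a l b))‖ ≤
      C₁ * (θ 1 - cav (fun b : Fin l → T => θ (PP φ a l b))).re) (S : Subgroup G)
    (hS : ∀ s ∈ S, ∃ b : Fin l → T, s = PP φ a l b) :
    (θ 1 - PA S θ 1).re ≤ (1 + C₁) * (θ 1 - cav (fun b : Fin l → T => θ (PP φ a l b))).re := by
  set M := cav (fun b : Fin l → T => θ (PP φ a l b)) with hM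
  have h1 : ∀ s : S, (θ 1).re - (1 + C₁) * (θ 1 - M).re ≤ (θ (1 * s)).re := by
    rintro ⟨s, hs⟩
    obtain ⟨b, rfl⟩ := hS s hs
    have h2 := (Complex.abs_re_le_norm _).trans (hcr b)
    rw [Complex.sub_re, abs_le] at h2
    have h3 := h2.1
    rw [one_mul]
    show _ ≤ (θ (PP φ a l b)).re
    rw [Complex.sub_re] at h3 ⊢
    linarith
  have h4 := av_mono h1
  rw [av_const] at h4
  unfold PA
  rw [Complex.sub_re, cav_re]
  linarith

/-- **B3b**: groups of bounded order -/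
theorem orbSmall_of (hConn : ConnBd) (hStep : StepS) (hCr : CrudeS) : OrbSmall := by
  intro n
  obtain ⟨C₁, hC₁, hCr⟩ := hCr n
  refine ⟨4 * n * (1 + C₁), by positivity, ?_⟩
  intro T _ _ hT G _ _ φ hφ a l hl hC hρ θ hθ b
  obtain ⟨ρ, hρ⟩ := hρ
  have hC' : CommH φ a l := hC
  have hθc : ∀ g x, θ (x * g * x⁻¹) = θ g := hθ.conj
  set M := cav (fun b : Fin l → T => θ (PP φ a l b)) with hM
  set μ := (θ 1 - M).re with hμ
  -- the cone on the product
  have hΘ : HPC (fun b : Fin l → T => θ (PP φ a l b)) := HPC.comp' hθ (PPhom hC')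
  have hone : PP φ a l (1 : Fin l → T) = 1 := (PPhom hC').map_one
  have hcr : ∀ b : Fin l → T, ‖θ (PP φ a l b) - M‖ ≤ C₁ * μ := by
    intro b
    have h1 := hCr T hT l _ hΘ b
    simp only [hone] at h1
    exact h1
  have hμ0 : 0 ≤ μ := by
    have h1 := av_mono (f := fun b : Fin l → T => (θ (PP φ a l b)).re)
      (g := fun _ : Fin l → T => (θ 1).re) (fun b => re_le_one hθ _)
    rw [av_const, ← cav_re] at h1
    rw [hμ, Complex.sub_re]
    linarith
  -- the function on the factor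
  have hPP : ∀ b : Fin l → T, θ (a * PP φ a l b) = θ (a * φ (qq (ext l b) l)) :=
    fun b => class_PP θ hθc hC' hl b
  have hcav : cav (fun b : Fin l → T => θ (a * PP φ a l b)) = cav (fun t : T => θ (a * φ t)) := by
    rw [← cav_qq hl (fun t : T => θ (a * φ t))]
    congr 1
    funext b
    exact hPP b
  rw [hcav, hPP]
  -- twisted conjugation
  have htw : ∀ s t : T, θ (a * φ (ρ.symm s * t * s⁻¹)) = θ (a * φ t) := by
    intro s t
    obtain ⟨k, rfl⟩ : ∃ k, l = k + 1 := ⟨l - 1, by omega⟩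
    have h1 : (a ^ (k + 1))⁻¹ * φ s * a ^ (k + 1) = φ (ρ.symm s) := by
      rw [← ρ.apply_symm_apply s, ← hρ, ρ.apply_symm_apply]
      group
    have h2 : φ s * (a * φ t) * (φ s)⁻¹ = a * (DD φ a k (ρ.symm s) * φ (t * s⁻¹)) := by
      unfold DD
      rw [← h1, map_mul, map_inv, pow_succ]
      group
    rw [← hθc (a * φ t) (φ s), h2, class_DD θ hθc hC' k (Nat.lt_succ_self k)]
    rw [mul_assoc]
  -- the group
  let Γ : Subgroup G := Subgroup.normalizer (φ.range : Set G)
  have hw : a ^ l ∈ Γ := by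
    rw [Subgroup.mem_normalizer_iff]
    intro g
    constructor
    · rintro ⟨t, rfl⟩
      exact ⟨ρ t, (hρ t).symm⟩
    · rintro ⟨t, ht⟩
      refine ⟨ρ.symm t, ?_⟩
      have h1 := hρ (ρ.symm t)
      rw [ρ.apply_symm_apply, ht] at h1
      exact mul_left_cancel (mul_right_cancel h1)
  have hle : φ.range ≤ Γ := Subgroup.le_normalizer
  let N : Subgroup Γ := φ.range.subgroupOf Γ
  have hN : N.Normal := Subgroup.normal_in_normalizer
  let x : Γ := ⟨a ^ l, hw⟩
  let F : Γ → ℂ := fun g => θ (a * ((a ^ l)⁻¹ * (g : G)))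
  have hmem : ∀ y : Γ, x⁻¹ * y ∈ N → ∃ t : T, (y : G) = a ^ l * φ t := by
    intro y hy
    obtain ⟨t, ht⟩ := Subgroup.mem_subgroupOf.1 hy
    refine ⟨t, ?_⟩
    rw [ht]
    show (y : G) = a ^ l * ((a ^ l)⁻¹ * (y : G))
    group
  have hF : ∀ (y : Γ) (t : T), (y : G) = a ^ l * φ t → F y = θ (a * φ t) := by
    intro y t h
    show θ (a * ((a ^ l)⁻¹ * (y : G))) = _
    rw [h]
    congr 2
    group
  have hcard : Nat.card N ≤ n := by
    refine le_trans ?_ hT
    have e : N ≃ φ.range := (Subgroup.subgroupOfEquivOfLe hle).toEquiv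
    rw [Nat.card_congr e]
    exact Nat.card_le_card_of_surjective φ.rangeRestrict φ.rangeRestrict_surjective
  have hmain := hConn Γ N x F (2 * ((1 + C₁) * μ)) (by positivity) (by
    intro u hu g hg
    obtain ⟨t, ht⟩ := hmem g hg
    obtain ⟨s, hs⟩ := Subgroup.mem_subgroupOf.1 hu
    have hs' : φ s = (u : G) := hs
    have h1 : ((u * g * u⁻¹ : Γ) : G) = a ^ l * φ (ρ.symm s * t * s⁻¹) := by
      have h2 : a ^ l * φ (ρ.symm s) * (a ^ l)⁻¹ = φ s := by
        rw [hρ, ρ.apply_symm_apply]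
      show (u : G) * (g : G) * (u : G)⁻¹ = _
      rw [ht, ← hs', map_mul, map_mul, map_inv]
      calc φ s * (a ^ l * φ t) * (φ s)⁻¹ =
          (a ^ l * φ (ρ.symm s) * (a ^ l)⁻¹) * (a ^ l * φ t) * (φ s)⁻¹ := by rw [h2]
        _ = _ := by group
    rw [hF _ _ h1, hF _ _ ht, htw]) (by
    intro R hR hRs y hy hyR r hr
    obtain ⟨t, ht⟩ := hmem y hy
    let R' : Subgroup T := (R.map Γ.subtype).comap φ
    have hR'1 : ∀ r' : T, r' ∈ R' ↔ ∃ z ∈ R, (z : G) = φ r' := by
      intro r'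
      rw [Subgroup.mem_comap, Subgroup.mem_map]
      rfl
    have hsolv : Group.IsSolvable R' := by
      have h1 : Group.IsSolvable (R.map Γ.subtype) :=
        Group.isSolvable_of_surjective (f := (R.equivMapOfInjective Γ.subtype Γ.subtype_injective).toMonoidHom)
          (R.equivMapOfInjective Γ.subtype Γ.subtype_injective).surjective
      refine Group.isSolvable_of_isSolvable_injective (f := φ.subgroupComap (R.map Γ.subtype)) ?_
      intro u v huv
      apply Subtype.ext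
      apply hφ
      exact congrArg Subtype.val huv
    have hinv : ∀ r' : T, r' ∈ R' ↔ ρ (t * r' * t⁻¹) ∈ R' := by
      intro r'
      have h1 : φ (ρ (t * r' * t⁻¹)) = (y : G) * φ r' * (y : G)⁻¹ := by
        rw [← hρ, ht, map_mul, map_mul, map_inv]
        group
      rw [hR'1, hR'1]
      constructor
      · rintro ⟨z, hz, hzr⟩
        refine ⟨y * z * y⁻¹, (hyR z).1 hz, ?_⟩
        rw [h1, ← hzr]
        rfl
      · rintro ⟨z, hz, hzr⟩
        refine ⟨y⁻¹ * z * y, (hyR _).2 ?_, ?_⟩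
        · have : y * (y⁻¹ * z * y) * y⁻¹ = z := by group
          rw [this]
          exact hz
        · show (y : G)⁻¹ * (z : G) * (y : G) = φ r'
          rw [hzr, h1]
          group
    obtain ⟨r', hr'⟩ := Subgroup.mem_subgroupOf.1 (hR hr)
    have hr'' : φ r' = (r : G) := hr'
    obtain ⟨S, hS, hSle⟩ := hStep G T φ a l hl hC ρ hρ θ hθ R' hsolv t hinv r'
      ((hR'1 r').2 ⟨r, hr, hr''.symm⟩)
    have h1 : ((y * r : Γ) : G) = a ^ l * φ (t * r') := by
      show (y : G) * (r : G) = _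
      rw [ht, ← hr'', map_mul, mul_assoc]
    rw [hF _ _ h1, hF _ _ ht]
    refine hSle.trans ?_
    have h2 := sub_le hcr S hS
    linarith)
  have hfin : ∀ t : T, ‖θ (a * φ t) - θ (a * φ 1)‖ ≤ n * (2 * ((1 + C₁) * μ)) := by
    intro t
    have ht : (⟨φ t, hle ⟨t, rfl⟩⟩ : Γ) ∈ N := Subgroup.mem_subgroupOf.2 ⟨t, rfl⟩
    have h1 := hmain _ ht
    rw [hF (x * ⟨φ t, hle ⟨t, rfl⟩⟩) t rfl, hF x 1 (by rw [map_one, mul_one])] at h1
    refine h1.trans (mul_le_mul_of_nonneg_right (by exact_mod_cast hcard) (by positivity))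
  refine norm_sub_cav_le _ _ _ fun t' => ?_
  have h1 := hfin (qq (ext l b) l)
  have h2 := hfin t'
  have h3 : θ (a * φ (qq (ext l b) l)) - θ (a * φ t') =
      (θ (a * φ (qq (ext l b) l)) - θ (a * φ 1)) - (θ (a * φ t') - θ (a * φ 1)) := by ring
  rw [h3]
  refine (norm_sub_le _ _).trans ?_
  linarith

end Pool.Agent.Helper4.BP
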